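import Pool.Agent.helper54.TS.Spec

set_option autoImplicit false

open Polynomial Finset

noncomputable section

namespace Pool.Agent.TS

open Pool.Agent.PSA (IsSalem Indep Fac)

/-- partial products -/
def BLK_P (b : ℕ → ℝ) (i n : ℕ) : ℝ := ∏ l ∈ range n, b (i + l)

lemma BLK_P_succ (b : ℕ → ℝ) (i n : ℕ) : BLK_P b i (n + 1) = BLK_P b i n * b (i + n) := by
  unfold BLK_P
  rw [prod_range_succ]

lemma BLK_P_pos (b : ℕ → ℝ) (h1 : ∀ n, 1 < b n) (i n : ℕ) : 0 < BLK_P b i n := by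
  unfold BLK_P
  exact prod_pos fun l _ => by linarith [h1 (i + l)]

lemma BLK_P_mono (b : ℕ → ℝ) (h1 : ∀ n, 1 < b n) (i : ℕ) : Monotone (BLK_P b i) := by
  apply monotone_nat_of_le_succ
  intro n
  rw [BLK_P_succ]
  have h2 := BLK_P_pos b h1 i n
  have h3 := h1 (i + n)
  nlinarith

lemma BLK_P_per (b : ℕ → ℝ) (h1 : ∀ n, 1 < b n) (p : ℕ) (hb : ∀ n, b (n + p) = b n) (i : ℕ) :
    BLK_P b i p = ∏ l ∈ range p, b l := by
  induction i with
  | zero =>
    unfold BLK_P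
    simp only [zero_add]
  | succ i ih =>
    rw [← ih]
    have e1 : ∏ l ∈ range (p + 1), b (i + l) = BLK_P b i p * b i := by
      rw [prod_range_succ, hb]; rfl
    have e2 : ∏ l ∈ range (p + 1), b (i + l) = BLK_P b (i + 1) p * b i := by
      rw [prod_range_succ']
      unfold BLK_P
      congr 1
      refine prod_congr rfl fun l _ => ?_
      congr 1
      omega
    have h2 : b i ≠ 0 := by linarith [h1 i]
    exact mul_right_cancel₀ h2 (e2.symm.trans e1)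

lemma BLK_mod {α : Type} (f : ℕ → α) (p : ℕ) (h : ∀ n, f (n + p) = f n) (n : ℕ) : f (n % p) = f n := by
  have h1 : Function.Periodic f p := h
  exact h1.map_mod_nat n

theorem BLK (hCMS : CMS_stmt) (hCMC : CMC_stmt) : BLK_stmt := by
  intro K _ ι β p b κ θ hS i hi
  have hp := hS.hp
  have hPβ : BLK_P b i p = ι β := by rw [BLK_P_per b hS.b1 p hS.pb i, hS.pr]
  -- the composition
  have hcmp : ∀ n : ℕ, ∃ B : K, ι B = BLK_P b i (n + 1) ∧ CMp ι B (fun y => orb b κ θ i y (n + 1)) := by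
    have hone : ∀ n : ℕ, ∃ bK : K, ι bK = b (i + n) ∧
        CMp ι bK (fun y => rho (κ (i + n + 1)) (θ (i + n + 1)) (Int.fract (b (i + n) * y))) := by
      intro n
      obtain ⟨bK, hbK⟩ := hS.bK (i + n)
      obtain ⟨κK, hκK⟩ := hS.kK (i + n + 1)
      obtain ⟨θK, hθK⟩ := hS.tK (i + n + 1)
      refine ⟨bK, hbK, ?_⟩
      have h := hCMS K ι bK κK θK (by rw [hbK]; exact hS.b1 _)
        (by rw [hκK]; linarith [hS.hk (i + n + 1)]) (by rw [hκK, hθK]; exact hS.ht (i + n + 1))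
      rw [hbK, hκK, hθK] at h
      exact h
    intro n
    induction n with
    | zero =>
      obtain ⟨bK, hbK, h⟩ := hone 0
      refine ⟨bK, ?_, h⟩
      rw [hbK, BLK_P_succ]
      unfold BLK_P
      simp
    | succ n ih =>
      obtain ⟨B, hB, hBc⟩ := ih
      obtain ⟨bK, hbK, h⟩ := hone (n + 1)
      refine ⟨bK * B, ?_, ?_⟩
      · rw [map_mul, hbK, hB, BLK_P_succ b i (n + 1), mul_comm]
      · exact hCMC K ι B bK (fun y => orb b κ θ i y (n + 1))
          (fun y => rho (κ (i + (n + 1) + 1)) (θ (i + (n + 1) + 1)) (Int.fract (b (i + (n + 1)) * y))) hBc h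
  obtain ⟨q, hq⟩ : ∃ q, p = q + 1 := ⟨p - 1, by omega⟩
  obtain ⟨B, hB, hBc⟩ := hcmp q
  rw [← hq] at hB hBc
  have hBβ : B = β := ι.injective (by rw [hB, hPβ])
  rw [hBβ] at hBc
  obtain ⟨S, hSpos, hSd⟩ := hBc.dig
  have hβ1 : 1 < ι β := by
    rw [← hPβ, hq, BLK_P_succ]
    have h1 : 1 ≤ BLK_P b i q := by
      have h2 := BLK_P_mono b hS.b1 i (Nat.zero_le q)
      have h3 : BLK_P b i 0 = 1 := by unfold BLK_P; simp
      rwa [h3] at h2
    have h4 := hS.b1 (i + q)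
    nlinarith
  have hβ0 : 0 < ι β := by linarith
  -- the margin
  obtain ⟨m0, hm0, hmin⟩ := Finset.exists_min_image (range p) (fun m => b m * κ m) ⟨0, mem_range.mpr hp⟩
  have hm1 : 1 < b m0 * κ m0 := hS.hb m0 m0
  have hmall : ∀ m, b m0 * κ m0 ≤ b m * κ m := by
    intro m
    rw [← BLK_mod b p hS.pb m, ← BLK_mod κ p hS.pk m]
    exact hmin _ (mem_range.mpr (Nat.mod_lt m hp))
  set δ : ℝ := min (min (1 / 2) ((ι β - 1) / 2)) (min ((ι β)⁻¹) ((b m0 * κ m0 - 1) / 2)) with hδ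
  have hinv0 : 0 < (ι β)⁻¹ := inv_pos.mpr hβ0
  have hδ0 : 0 < δ := by
    rw [hδ]
    exact lt_min (lt_min (by norm_num) (by linarith)) (lt_min hinv0 (by linarith))
  have hδ1 : δ ≤ 1 / 2 := le_trans (min_le_left _ _) (min_le_left _ _)
  have hδ2 : δ ≤ (ι β - 1) / 2 := le_trans (min_le_left _ _) (min_le_right _ _)
  have hδ3 : δ ≤ (ι β)⁻¹ := le_trans (min_le_right _ _) (min_le_left _ _)
  have hδ4 : δ ≤ (b m0 * κ m0 - 1) / 2 := le_trans (min_le_right _ _) (min_le_right _ _)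
  have hκ1 : ∀ n, κ n ≤ 1 := by
    intro n
    rcases hS.ht n with h | h
    · exact h.1.le
    · linarith [h.1, h.2]
  -- the first steps do nothing
  have horb : ∀ y1 : ℝ, 0 ≤ y1 → y1 ≤ 1 + δ → ∀ n : ℕ, n < p →
      orb b κ θ i ((ι β)⁻¹ * y1) n = (ι β)⁻¹ * y1 * BLK_P b i n := by
    intro y1 hy0 hy1 n
    induction n with
    | zero =>
      intro _
      have h3 : BLK_P b i 0 = 1 := by unfold BLK_P; simp
      rw [h3, mul_one]
      rfl
    | succ n ih =>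
      intro hn
      have h1 := ih (by omega)
      have hstep : orb b κ θ i ((ι β)⁻¹ * y1) (n + 1) =
          rho (κ (i + n + 1)) (θ (i + n + 1)) (Int.fract (b (i + n) * orb b κ θ i ((ι β)⁻¹ * y1) n)) := rfl
      have hV : b (i + n) * orb b κ θ i ((ι β)⁻¹ * y1) n = (ι β)⁻¹ * y1 * BLK_P b i (n + 1) := by
        rw [h1, BLK_P_succ]; ring
      have hP2 : BLK_P b i (n + 2) ≤ ι β := by
        rw [← hPβ]
        exact BLK_P_mono b hS.b1 i (by omega)
      have hP1 : BLK_P b i (n + 2) = BLK_P b i (n + 1) * b (i + n + 1) := BLK_P_succ b i (n + 1)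
      have hPpos := BLK_P_pos b hS.b1 i (n + 1)
      have hb1 : 0 < b (i + n + 1) := by linarith [hS.b1 (i + n + 1)]
      have hVlt : (ι β)⁻¹ * y1 * BLK_P b i (n + 1) < κ (i + n + 1) := by
        have h2 : (ι β)⁻¹ * BLK_P b i (n + 1) * b (i + n + 1) ≤ 1 := by
          rw [mul_assoc, ← hP1]
          calc (ι β)⁻¹ * BLK_P b i (n + 2) ≤ (ι β)⁻¹ * ι β := mul_le_mul_of_nonneg_left hP2 hinv0.le
            _ = 1 := inv_mul_cancel₀ hβ0.ne'
        have h3 : y1 < b (i + n + 1) * κ (i + n + 1) := by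
          have := hmall (i + n + 1)
          linarith
        have h4 : 0 < (ι β)⁻¹ * BLK_P b i (n + 1) := mul_pos hinv0 hPpos
        have h5 : (ι β)⁻¹ * BLK_P b i (n + 1) * y1 < (ι β)⁻¹ * BLK_P b i (n + 1) * (b (i + n + 1) * κ (i + n + 1)) :=
          mul_lt_mul_of_pos_left h3 h4
        have h6 : (ι β)⁻¹ * BLK_P b i (n + 1) * (b (i + n + 1) * κ (i + n + 1)) ≤ 1 * κ (i + n + 1) := by
          rw [← mul_assoc]
          exact mul_le_mul_of_nonneg_right h2 (by linarith [hS.hk (i + n + 1)])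
        linarith
      have hV0 : 0 ≤ (ι β)⁻¹ * y1 * BLK_P b i (n + 1) := by positivity
      have hfr : Int.fract ((ι β)⁻¹ * y1 * BLK_P b i (n + 1)) = (ι β)⁻¹ * y1 * BLK_P b i (n + 1) :=
        Int.fract_eq_self.mpr ⟨hV0, lt_of_lt_of_le hVlt (hκ1 _)⟩
      rw [hstep, hV, hfr]
      unfold rho
      rw [if_pos hVlt]
  have hlast : ∀ y1 : ℝ, 0 ≤ y1 → y1 ≤ 1 + δ → orb b κ θ i ((ι β)⁻¹ * y1) p = Int.fract y1 := by
    intro y1 hy0 hy1
    have h1 := horb y1 hy0 hy1 q (by omega)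
    have hκp : κ (i + q + 1) = 1 := by
      have e : i + q + 1 = i + p := by omega
      rw [e, hS.pk, hi]
    have hstep : orb b κ θ i ((ι β)⁻¹ * y1) (q + 1) =
        rho (κ (i + q + 1)) (θ (i + q + 1)) (Int.fract (b (i + q) * orb b κ θ i ((ι β)⁻¹ * y1) q)) := rfl
    have hV : b (i + q) * orb b κ θ i ((ι β)⁻¹ * y1) q = y1 := by
      rw [h1]
      have e : b (i + q) * ((ι β)⁻¹ * y1 * BLK_P b i q) = (ι β)⁻¹ * y1 * BLK_P b i (q + 1) := by
        rw [BLK_P_succ]; ring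
      rw [e, ← hq, hPβ]
      field_simp
    rw [hq, hstep, hV, hκp]
    unfold rho
    rw [if_pos (Int.fract_lt_one y1)]
  -- the digits
  have hch : ∀ y : ℝ, ∃ e ∈ S, 0 ≤ y → y ≤ 1 → orb b κ θ i y p = ι β * y - ι e := by
    intro y
    by_cases hy : 0 ≤ y ∧ y ≤ 1
    · obtain ⟨e, he, h⟩ := hSd y hy.1 hy.2
      exact ⟨e, he, fun _ _ => h⟩
    · obtain ⟨e, he, _⟩ := hSd 0 le_rfl zero_le_one
      exact ⟨e, he, fun h0 h1 => absurd ⟨h0, h1⟩ hy⟩
  choose dg hdgS hdg using hch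
  refine ⟨dg, S, δ, ⟨?_, fun y _ _ => hdgS y, hSpos, fun y h0 h1 => hdg y h0 h1⟩⟩
  refine ⟨hδ0, by linarith, ?_, hδ3, hBc.rng, ?_, ?_, ?_, hBc.cell⟩
  · have h1 : 1 + δ < ι β := by linarith
    calc (ι β)⁻¹ * (1 + δ) < (ι β)⁻¹ * ι β := mul_lt_mul_of_pos_left h1 hinv0
      _ = 1 := inv_mul_cancel₀ hβ0.ne'
  · intro y h0 h1
    show orb b κ θ i y p ≤ ι β * y
    rw [hdg y h0 h1]
    have := hSpos _ (hdgS y)
    linarith
  · intro y h0 h1
    show orb b κ θ i ((ι β)⁻¹ * y) p = y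
    rw [hlast y h0 (by linarith)]
    exact Int.fract_eq_self.mpr ⟨h0, h1⟩
  · intro y h0 h1
    show orb b κ θ i ((ι β)⁻¹ * (1 + y)) p = y
    rw [hlast (1 + y) (by linarith) (by linarith)]
    have h2 : Int.fract (1 + y) = Int.fract y := by
      rw [add_comm]; exact Int.fract_add_one y
    rw [h2]
    exact Int.fract_eq_self.mpr ⟨h0, by linarith⟩

end Pool.Agent.TS
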