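import Pool.Agent.helper54.TS.Spec

set_option autoImplicit false

open Polynomial Finset

noncomputable section

namespace Pool.Agent.TS

open Pool.Agent.PSA (IsSalem Indep Fac)

theorem REF (hCAT : PX.CAT_stmt) (hRC : PX.RC_stmt) (hRNB : RNB_stmt) (hPGB : PGB_stmt) : REF_stmt := by
  intro K _ ι β p b κ θ hS hG
  set Bl : ℕ → List ℝ := fun j => sbl (κ j) (θ j) (b j) with hBl
  have hBl1 : ∀ j, κ j = 1 → Bl j = [b j] := by
    intro j hj
    show sbl (κ j) (θ j) (b j) = _
    unfold sbl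
    rw [if_pos hj]
  have hBl2 : ∀ j, κ j ≠ 1 → Bl j = [1 / θ j, θ j / κ j, b j * κ j] := by
    intro j hj
    show sbl (κ j) (θ j) (b j) = _
    unfold sbl
    rw [if_neg hj]
  have hne : ∀ j, Bl j ≠ [] := by
    intro j
    by_cases h : κ j = 1
    · rw [hBl1 j h]; simp
    · rw [hBl2 j h]; simp
  have hper : ∀ j, Bl (j + p) = Bl j := by
    intro j
    show sbl (κ (j + p)) (θ (j + p)) (b (j + p)) = sbl (κ j) (θ j) (b j)
    rw [hS.pk, hS.pt, hS.pb]
  obtain ⟨idx, α, h0, hsucc, hget, hαper, hdec⟩ := hCAT Bl p hne hper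
  have hlt : ∀ j, κ j ≠ 1 → κ j < 1 ∧ κ j < θ j ∧ θ j < 1 := by
    intro j hj
    rcases hS.ht j with h | h
    · exact absurd h.1 hj
    · exact ⟨lt_trans h.1 h.2, h.1, h.2⟩
  have hA1 : ∀ j, κ j = 1 → idx (j + 1) = idx j + 1 ∧ α (idx j) = b j := by
    intro j hj
    have hB := hBl1 j hj
    refine ⟨?_, ?_⟩
    · rw [hsucc, hB]; rfl
    · have h1 := hget j 0 (by rw [hB]; simp)
      rw [add_zero] at h1
      rw [h1]
      simp only [hB]
      rfl
  have hA2 : ∀ j, κ j ≠ 1 → idx (j + 1) = idx j + 3 ∧ α (idx j) = 1 / θ j ∧ α (idx j + 1) = θ j / κ j ∧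
      α (idx j + 2) = b j * κ j := by
    intro j hj
    have hB := hBl2 j hj
    refine ⟨?_, ?_, ?_, ?_⟩
    · rw [hsucc, hB]; rfl
    · have h1 := hget j 0 (by rw [hB]; simp)
      rw [add_zero] at h1
      rw [h1]
      simp only [hB]
      rfl
    · have h1 := hget j 1 (by rw [hB]; simp)
      rw [h1]
      simp only [hB]
      rfl
    · have h1 := hget j 2 (by rw [hB]; simp)
      rw [h1]
      simp only [hB]
      rfl
  -- the members
  have hmem : ∀ n, 1 < α n ∧ ∃ x : K, ι x = α n := by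
    intro n
    obtain ⟨j, i, hi, hn⟩ := hdec n
    obtain ⟨bK, hbK⟩ := hS.bK j
    obtain ⟨κK, hκK⟩ := hS.kK j
    obtain ⟨θK, hθK⟩ := hS.tK j
    by_cases h : κ j = 1
    · have hi0 : i = 0 := by
        have hl : (Bl j).length = 1 := by rw [hBl1 j h]; rfl
        omega
      rw [hn, hi0, add_zero, (hA1 j h).2]
      exact ⟨hS.b1 j, bK, hbK⟩
    · obtain ⟨_, e0, e1, e2⟩ := hA2 j h
      obtain ⟨hk1, hkt, ht1⟩ := hlt j h
      have hk0 : 0 < κ j := by linarith [hS.hk j]
      have ht0 : 0 < θ j := by linarith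
      have hl : (Bl j).length = 3 := by rw [hBl2 j h]; rfl
      have hi3 : i < 3 := by omega
      interval_cases i
      · rw [hn, add_zero, e0]
        refine ⟨by rw [lt_div_iff₀ ht0]; linarith, 1 / θK, ?_⟩
        rw [map_div₀, map_one, hθK]
      · rw [hn, e1]
        refine ⟨by rw [lt_div_iff₀ hk0]; linarith, θK / κK, ?_⟩
        rw [map_div₀, hθK, hκK]
      · rw [hn, e2]
        refine ⟨hS.hb j j, bK * κK, ?_⟩
        rw [map_mul, hbK, hκK]
  -- the product
  have hprod : ∀ j, ∏ i ∈ range (idx j), α i = ∏ i ∈ range j, b i := by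
    intro j
    induction j with
    | zero => rw [h0]; simp
    | succ j ih =>
      rw [prod_range_succ (fun i => b i) j]
      by_cases h : κ j = 1
      · obtain ⟨e, e0⟩ := hA1 j h
        rw [e, prod_range_succ, ih, e0]
      · obtain ⟨e, e0, e1, e2⟩ := hA2 j h
        obtain ⟨hk1, hkt, ht1⟩ := hlt j h
        have hk0 : 0 < κ j := by linarith [hS.hk j]
        have ht0 : 0 < θ j := by linarith
        rw [e, prod_range_succ, prod_range_succ, prod_range_succ, ih, e0, e1, e2]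
        field_simp
  have hidxpos : 0 < idx p := by
    obtain ⟨q, hq⟩ : ∃ q, p = q + 1 := ⟨p - 1, by have := hS.hp; omega⟩
    rw [hq, hsucc]
    have := List.length_pos_of_ne_nil (hne q)
    omega
  refine ⟨idx, α, h0, ?_, ⟨hidxpos, hαper, fun n => (hmem n).1, ?_⟩, fun n => (hmem n).2, ?_⟩
  · intro j
    by_cases h : κ j = 1
    · exact Or.inl ⟨h, hA1 j h⟩
    · exact Or.inr ⟨(hlt j h).1, hA2 j h⟩
  · rw [hprod p, hS.pr]
  · intro i r hr
    obtain ⟨j, o, ho, hi⟩ := hdec i
    set s : ℕ := (Bl j).length - o with hs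
    have hso : o + s = (Bl j).length := by omega
    have hrs : r s = PX.run ((Bl j).drop o) 1 := by
      have h1 := hRC α i r hr.2 ((Bl j).drop o) 0 (by
        intro k hk
        rw [List.length_drop] at hk
        rw [List.getElem_drop]
        have h2 := hget j (o + k) (by omega)
        rw [← h2]
        congr 1
        omega)
      rw [List.length_drop, zero_add, hr.1] at h1
      exact h1
    have hfin : ∀ x : ℝ, r s = Int.fract (b j * x) → 0 ≤ x → St κ θ j x →
        ∃ N T : ℕ, 0 < T ∧ ∀ n, N ≤ n → ⌊α (n + T + i) * r (n + T)⌋ = ⌊α (n + i) * r n⌋ := by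
      intro x hx hx0 hst
      exact hPGB p b κ θ hS.hp hS.pb hS.pk hS.pt hS.b1 hS.ht hS.hk idx α h0 hsucc hget hαper j s i x r
        (by rw [hsucc, hi]; omega) hr hx hx0 (hG j x hst)
    obtain ⟨_, hR1, hR2⟩ := hRNB (κ j) (θ j) (b j) (hS.ht j) (hS.hk j) (hS.b1 j)
    by_cases h : κ j = 1
    · have hl : (Bl j).length = 1 := by rw [hBl1 j h]; rfl
      have ho0 : o = 0 := by omega
      refine hfin 1 ?_ zero_le_one (Or.inl ⟨h, rfl⟩)
      rw [hrs, ho0, List.drop_zero]
      exact hR1 h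
    · obtain ⟨hk1, hkt, ht1⟩ := hlt j h
      obtain ⟨hX0, hX1, hX2⟩ := hR2 hk1
      have hl : (Bl j).length = 3 := by rw [hBl2 j h]; rfl
      have ho3 : o < 3 := by omega
      interval_cases o
      · refine hfin (1 - θ j) ?_ (by linarith) (Or.inr ⟨hk1, Or.inr (Or.inr rfl)⟩)
        rw [hrs, hBl2 j h]
        exact hX0
      · refine hfin (θ j - κ j) ?_ (by linarith) (Or.inr ⟨hk1, Or.inr (Or.inl rfl)⟩)
        rw [hrs, hBl2 j h]
        exact hX1
      · refine hfin (κ j) ?_ (by linarith [hS.hk j]) (Or.inr ⟨hk1, Or.inl rfl⟩)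
        rw [hrs, hBl2 j h]
        exact hX2

end Pool.Agent.TS
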