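import Pool.Agent.helper54.TS.Spec

set_option autoImplicit false

open Polynomial Finset

noncomputable section

namespace Pool.Agent.TS

open Pool.Agent.PSA (IsSalem Indep Fac)

lemma SPL_mod {α : Type} (f : ℕ → α) (p : ℕ) (h : ∀ n, f (n + p) = f n) (n : ℕ) : f (n % p) = f n := by
  have h1 : Function.Periodic f p := h
  exact h1.map_mod_nat n

/-- a uniform margin -/
lemma SPL_margin (p : ℕ) (hp : 0 < p) (b : ℕ → ℝ) (hb : ∀ n, b (n + p) = b n) (h1 : ∀ n, 1 < b n) :
    ∃ e : ℝ, 0 < e ∧ ∀ n, 1 < b n * (1 - e) := by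
  obtain ⟨m, hm, hmin⟩ := Finset.exists_min_image (range p) b ⟨0, mem_range.mpr hp⟩
  have hm1 := h1 m
  have hm0 : 0 < b m := by linarith
  refine ⟨(1 - 1 / b m) / 2, ?_, ?_⟩
  · have : 1 / b m < 1 := by rw [div_lt_one hm0]; exact hm1
    linarith
  · intro n
    have h2 : b m ≤ b n := by
      rw [← SPL_mod b p hb n]
      exact hmin _ (mem_range.mpr (Nat.mod_lt n hp))
    have h3 : 0 < 1 - (1 - 1 / b m) / 2 := by
      have : 0 < 1 / b m := by positivity
      linarith
    have h4 : b m * (1 - (1 - 1 / b m) / 2) = (b m + 1) / 2 := by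
      field_simp
      ring
    have h5 : b m * (1 - (1 - 1 / b m) / 2) ≤ b n * (1 - (1 - 1 / b m) / 2) :=
      mul_le_mul_of_nonneg_right h2 h3.le
    linarith

theorem SPL (hORP : ORP_stmt) (hSAM : SAM_stmt) (hGDP : GDP_stmt) (hTHR : THR_stmt) : SPL_stmt := by
  intro K _ ι β p b κ θ hS i hi hbad hex ε hε
  obtain ⟨μ, hμ1, hμ⟩ := hTHR K ι β p b κ θ hS
  obtain ⟨e, he0, he⟩ := SPL_margin p hS.hp b hS.pb hS.b1
  set ε' := min (min ε (1 - μ)) (min (1 / 2) e) with hε'
  have hε'0 : 0 < ε' := by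
    rw [hε']
    refine lt_min (lt_min hε (by linarith)) (lt_min (by norm_num) he0)
  have hε'1 : ε' ≤ ε := le_trans (min_le_left _ _) (min_le_left _ _)
  have hε'2 : ε' ≤ 1 - μ := le_trans (min_le_left _ _) (min_le_right _ _)
  have hε'3 : ε' ≤ 1 / 2 := le_trans (min_le_right _ _) (min_le_left _ _)
  have hε'4 : ε' ≤ e := le_trans (min_le_right _ _) (min_le_right _ _)
  obtain ⟨κ0, θ0, hκ0, hH⟩ := hex ε' hε'0
  obtain ⟨hκθ, hθ1, hk1, hk2, hk3, hf1, hf2, hf3⟩ := hH
  have hκ01 : ι κ0 < 1 := lt_trans hκθ hθ1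
  set κ' : ℕ → ℝ := fun n => if n % p = i % p then ι κ0 else κ n with hκ'
  set θ' : ℕ → ℝ := fun n => if n % p = i % p then ι θ0 else θ n with hθ'
  have hin : ∀ n, n % p = i % p → κ' n = ι κ0 ∧ θ' n = ι θ0 := by
    intro n hn
    exact ⟨if_pos hn, if_pos hn⟩
  have hout : ∀ n, n % p ≠ i % p → κ' n = κ n ∧ θ' n = θ n := by
    intro n hn
    exact ⟨if_neg hn, if_neg hn⟩
  have hold : ∀ n, n % p = i % p → κ n = 1 ∧ θ n = 1 := by
    intro n hn
    have h1 : κ n = 1 := by
      rw [← SPL_mod κ p hS.pk n, hn, SPL_mod κ p hS.pk i, hi]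
    refine ⟨h1, ?_⟩
    rcases hS.ht n with h | h
    · exact h.2
    · linarith [h.1, h.2]
  have hmod : ∀ n, (n + p) % p = n % p := fun n => Nat.add_mod_right n p
  have hS' : Sys ι β p b κ' θ' := by
    refine ⟨hS.hp, hS.pb, ?_, ?_, hS.b1, hS.pr, hS.bK, ?_, ?_, ?_, ?_, ?_⟩
    · intro n
      show (if (n + p) % p = i % p then ι κ0 else κ (n + p)) = if n % p = i % p then ι κ0 else κ n
      rw [hmod, hS.pk]
    · intro n
      show (if (n + p) % p = i % p then ι θ0 else θ (n + p)) = if n % p = i % p then ι θ0 else θ n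
      rw [hmod, hS.pt]
    · intro n
      by_cases h : n % p = i % p
      · exact ⟨κ0, (hin n h).1.symm⟩
      · rw [(hout n h).1]; exact hS.kK n
    · intro n
      by_cases h : n % p = i % p
      · exact ⟨θ0, (hin n h).2.symm⟩
      · rw [(hout n h).2]; exact hS.tK n
    · intro n
      by_cases h : n % p = i % p
      · rw [(hin n h).1, (hin n h).2]
        exact Or.inr ⟨hκθ, hθ1⟩
      · rw [(hout n h).1, (hout n h).2]; exact hS.ht n
    · intro n
      by_cases h : n % p = i % p
      · rw [(hin n h).1]; linarith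
      · rw [(hout n h).1]; exact hS.hk n
    · intro n m
      by_cases h : n % p = i % p
      · rw [(hin n h).1]
        have h1 := he m
        have h2 := hS.b1 m
        have h3 : b m * (1 - e) ≤ b m * ι κ0 := mul_le_mul_of_nonneg_left (by linarith) (by linarith)
        linarith
      · rw [(hout n h).1]; exact hS.hb n m
  obtain ⟨horp1, horp2, horp3⟩ := hORP p b κ θ hS.pb hS.pk hS.pt
  refine ⟨κ', θ', hS', ?_, ?_, hout, ?_, ?_, ?_⟩
  · rw [(hin i rfl).1]; exact hκ01
  · rw [(hin i rfl).1]; linarith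
  · intro n hn
    rw [(hin n hn).1, (hin n hn).2, (hin i rfl).1, (hin i rfl).2]
    exact ⟨rfl, rfl⟩
  · intro x hx
    have hκ'i := (hin i rfl).1
    have hθ'i := (hin i rfl).2
    have key : (∀ m, 1 ≤ m → (fun y => orb b κ θ i y p)^[m] x < ι κ0) →
        (Set.range (fun m => (fun y => orb b κ θ i y p)^[m] x)).Finite →
        (Set.range (orb b κ' θ' i x)).Finite := by
      intro h1 h2
      have hsame : ∀ n, orb b κ' θ' i x n = orb b κ θ i x n := by
        refine hSAM p b κ θ κ' θ' i hout hold i x ?_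
        intro n hn hc
        rw [(hin (i + n) hc).1]
        obtain ⟨m, hm⟩ : ∃ m, n = m * p := by
          have h3 : i + n ≡ i + 0 [MOD p] := by rw [add_zero]; exact hc
          have h4 : n ≡ 0 [MOD p] := Nat.ModEq.add_left_cancel' i h3
          obtain ⟨m, hm⟩ := (Nat.modEq_zero_iff_dvd).1 h4
          exact ⟨m, by rw [hm, mul_comm]⟩
        have hm1 : 1 ≤ m := by
          rcases Nat.eq_zero_or_pos m with h0 | h0
          · rw [h0, zero_mul] at hm; omega
          · exact h0
        have h5 := horp3 i x m 0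
        rw [add_zero] at h5
        rw [hm, h5]
        exact h1 m hm1
      have hfin : (Set.range (orb b κ θ i x)).Finite := by
        have h3 : ((Set.range (fun m => (fun y => orb b κ θ i y p)^[m] x)) ×ˢ (Set.Iio p : Set ℕ)).Finite :=
          h2.prod (Set.finite_Iio p)
        refine (h3.image (fun q : ℝ × ℕ => orb b κ θ i q.1 q.2)).subset ?_
        rintro _ ⟨n, rfl⟩
        refine ⟨((fun y => orb b κ θ i y p)^[n / p] x, n % p), ⟨⟨n / p, rfl⟩, Nat.mod_lt n hS.hp⟩, ?_⟩
        have h4 := horp3 i x (n / p) (n % p)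
        rw [Nat.div_add_mod'] at h4
        exact h4.symm
      have e : orb b κ' θ' i x = orb b κ θ i x := funext hsame
      rw [e]
      exact hfin
    rcases hx with h | ⟨_, h | h | h⟩
    · rw [hκ'i] at h
      exact absurd h.1 hκ01.ne
    · rw [hκ'i] at h
      rw [h] at key ⊢
      exact key hk1 hf1
    · rw [hκ'i, hθ'i] at h
      rw [h] at key ⊢
      exact key (fun m _ => hk2 m) hf2
    · rw [hθ'i] at h
      rw [h] at key ⊢
      exact key (fun m _ => hk3 m) hf3
  · intro j hj x hx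
    have hji : j % p ≠ i % p := by
      intro h
      exact hbad (hGDP K ι β p b κ θ hS j i h hj)
    have hx' : St κ θ j x := by
      unfold St at hx ⊢
      rw [(hout j hji).1, (hout j hji).2] at hx
      exact hx
    have hsame : ∀ n, orb b κ' θ' j x n = orb b κ θ j x n := by
      refine hSAM p b κ θ κ' θ' i hout hold j x ?_
      intro n hn hc
      rw [(hin (j + n) hc).1]
      have := hμ j hj x hx' n hn
      linarith
    have e : orb b κ' θ' j x = orb b κ θ j x := funext hsame
    rw [e]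
    exact hj x hx'

end Pool.Agent.TS
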